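import Pool.Agent.helper70.BND.SpecH

/-!
# Project bnd (MP_376aaf_an), block H, row EXW: existence of the words of the next level
-/

set_option autoImplicit false

open scoped Topology
open Finset

namespace Pool.Agent.BND.EX

theorem EXW (hBPT : BPT_stmt) (hBP1 : BP1_stmt) (hMKL : MKL_stmt) (hWDC : WDC_stmt) (hPRF : PRF_stmt) : EXW_stmt := by
  classical
  intro m A A' M J Rk hNx hL hN
  obtain ⟨hLv, -, -, hcb, hcb', hne, -⟩ := hMKL A' hNx.gl'
  have hbig : ∀ v' v, v' < A'.n → v < A.n → 3 * A.cs + (D0 A.l J).length + 4 ≤ M v' v := by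
    intro v' v h1 h2
    have h3 := hNx.big v' v h1 h2
    unfold Nb at h3
    omega
  have key : ∀ e, A'.n ≤ e → e < A'.l.N → ∃ (d : ℕ → ℤ) (γ : ℝ → List (ℕ × ℝ)),
      PdW A.l (Gd A.l J (kp M (A'.l.W e false)) (kp M (A'.l.W e true)) (2 * A.cs)
        (((A'.l.W e false).length + (A'.l.W e true).length) * hw A.l.h (Dl A.l.N J)))
      ((A'.l.W e false).flatMap fun v => wv A.l J (M v)) ((A'.l.W e true).flatMap fun v => wv A.l J (M v)) d
      (if e < A'.n + A'.n * A'.n then {x | x.1 < A.l.N ∧ x.2 ∈ U} else ∅) γ ∧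
      (Rk → e < A'.n + A'.n * A'.n → ∀ i, i < A.n + A.n * A.n → d i = 0) := by
    intro e he1 he2
    by_cases h : e < A'.n + A'.n * A'.n
    · rw [if_pos h]
      obtain ⟨a, b, ha, hb, rfl⟩ := hcb' e he1 h
      obtain ⟨-, -, -, -, hW0, hW1⟩ := hcb a b ha hb
      rw [hW0, hW1]
      have hx : ∀ x ∈ [a, b], ∀ v, v < A.n → 3 * A.cs + (D0 A.l J).length + 4 ≤ M x v := by
        intro x hx v hv
        simp only [List.mem_cons, List.not_mem_nil, or_false] at hx
        rcases hx with rfl | rfl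
        · exact hbig _ v ha hv
        · exact hbig _ v hb hv
      have hlen : ([a, b].length + [b, a].length) * hw A.l.h (Dl A.l.N J) = 4 * hw A.l.h (Dl A.l.N J) := by
        simp
      rw [hlen]
      by_cases hR : Rk
      · obtain ⟨N, hN'⟩ := hN hR a b ha hb
        obtain ⟨γ, hγ⟩ := hBP1 A J M a b (4 * hw A.l.h (Dl A.l.N J)) N hNx.gl hNx.J1 hx le_rfl hN'
        exact ⟨fun _ => 0, γ, hγ, fun _ _ _ _ => rfl⟩
      · have hx' : ∀ x ∈ [a, b] ++ [b, a], ∀ v, v < A.n → 3 * A.cs + (D0 A.l J).length + 4 ≤ M x v := by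
          intro x hx' v hv
          simp only [List.cons_append, List.nil_append, List.mem_cons, List.not_mem_nil, or_false] at hx'
          rcases hx' with rfl | rfl | rfl | rfl
          · exact hbig _ v ha hv
          · exact hbig _ v hb hv
          · exact hbig _ v hb hv
          · exact hbig _ v ha hv
        obtain ⟨d, hd⟩ := hBPT A J M [a, b] [b, a] (4 * hw A.l.h (Dl A.l.N J)) hNx.gl hNx.J1 (by simp) (by simp)
          hx' (by simp) ⟨fun _ => 0, by
            intro v _
            simp [kp, add_comm]⟩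
        obtain ⟨γ, hγ⟩ := (hPRF A.l _).2 _ _ d d _ {x | x.1 < A.l.N ∧ x.2 ∈ U} hd (fun _ _ => rfl) (by
          intro x hx'
          exact ⟨by simp, hx'.1, hx'.2⟩)
        exact ⟨d, γ, hγ, fun hR' => absurd hR' hR⟩
    · rw [if_neg h]
      obtain ⟨j, rfl⟩ : ∃ j, e = A'.n + A'.n * A'.n + j := ⟨e - (A'.n + A'.n * A'.n), by omega⟩
      have hj : j < A'.k := by
        have h1 : A'.l.N = A'.n + A'.n * A'.n + A'.k := rfl
        omega
      obtain ⟨a, ha⟩ := hL j hj
      have hmem := hLv.mem _ he2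
      have hx' : ∀ x ∈ A'.l.W (A'.n + A'.n * A'.n + j) false ++ A'.l.W (A'.n + A'.n * A'.n + j) true, ∀ v, v < A.n →
          3 * A.cs + (D0 A.l J).length + 4 ≤ M x v := by
        intro x hx v hv
        rw [List.mem_append] at hx
        rcases hx with hx | hx
        · exact hbig _ v (hmem false x hx) hv
        · exact hbig _ v (hmem true x hx) hv
      have hW : ∀ b, A'.l.W (A'.n + A'.n * A'.n + j) b =
          wd A'.n fun v => if b then (A'.c j v).toNat else (-(A'.c j v)).toNat := by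
        intro b
        change Wd A'.n A'.c (A'.n + A'.n * A'.n + j) b = _
        unfold Wd
        rw [if_neg (by omega), if_neg (by omega)]
        have h3 : A'.n + A'.n * A'.n + j - (A'.n + A'.n * A'.n) = j := by omega
        rw [h3]
      obtain ⟨d, hd⟩ := hBPT A J M (A'.l.W (A'.n + A'.n * A'.n + j) false) (A'.l.W (A'.n + A'.n * A'.n + j) true)
        (((A'.l.W (A'.n + A'.n * A'.n + j) false).length + (A'.l.W (A'.n + A'.n * A'.n + j) true).length) *
          hw A.l.h (Dl A.l.N J)) hNx.gl hNx.J1 (hne _ _ he2) (hne _ _ he2) hx' le_rfl ⟨a, by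
          intro v hv
          rw [← ha v hv]
          unfold kp
          rw [hW false, hW true, (hWDC A'.n _).2.2 ℕ, (hWDC A'.n _).2.2 ℕ]
          push_cast
          rw [← Finset.sum_sub_distrib]
          refine Finset.sum_congr rfl fun v' _ => ?_
          simp only [smul_eq_mul, if_true]
          push_cast
          have h4 : ((A'.c j v').toNat : ℤ) - ((-(A'.c j v')).toNat : ℤ) = A'.c j v' := by omega
          rw [← sub_mul, h4]⟩
      obtain ⟨γ, hγ⟩ := (hPRF A.l _).2 _ _ d d _ ∅ hd (fun _ _ => rfl) (Set.empty_subset _)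
      exact ⟨d, γ, hγ, fun _ h' => absurd h' h⟩
  choose d γ h1 h2 using key
  refine ⟨fun e => if h : A'.n ≤ e ∧ e < A'.l.N then γ e h.1 h.2 else fun _ => wv A.l J (M e), ?_, ?_⟩
  · intro e s he
    rw [dif_neg (by omega)]
  · intro e he1 he2
    rw [dif_pos ⟨he1, he2⟩]
    exact ⟨d e he1 he2, h1 e he1 he2, h2 e he1 he2⟩

end Pool.Agent.BND.EX
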