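import Pool.Agent.helper70.BND.SpecH

/-!
# Project bnd (MP_376aaf_an), block H, row JEX: uniform continuity
-/

set_option autoImplicit false

open scoped Topology
open Finset

namespace Pool.Agent.BND.EX

theorem JEX_one (f : ℝ → ℂ) (hf : ContinuousOn f U) (ε : ℝ) (hε : 0 < ε) :
    ∀ᶠ J : ℕ in Filter.atTop, ∀ t ∈ U, ∀ t' ∈ U, |t - t'| ≤ 1 / (J : ℝ) → ‖f t - f t'‖ ≤ ε := by
  have h1 : UniformContinuousOn f U := isCompact_Icc.uniformContinuousOn_of_continuous hf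
  rw [Metric.uniformContinuousOn_iff] at h1
  obtain ⟨δ, hδ, h2⟩ := h1 ε hε
  have h3 : ∀ᶠ J : ℕ in Filter.atTop, 1 / (J : ℝ) < δ := by
    have h4 := tendsto_one_div_atTop_nhds_zero_nat (𝕜 := ℝ)
    exact h4.eventually_lt_const hδ
  filter_upwards [h3] with J hJ t ht t' ht' htt
  have h5 := h2 t ht t' ht' (by rw [Real.dist_eq]; exact lt_of_le_of_lt htt hJ)
  rw [dist_eq_norm] at h5
  exact h5.le

theorem JEX : JEX_stmt := by
  intro l FL m hFL
  have hε : (0 : ℝ) < 1 / ((m : ℝ) + 1) := by positivity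
  have key : ∀ᶠ J : ℕ in Filter.atTop, ∀ Φ ∈ {Φ | Φ ∈ FL}, ∀ e ∈ range l.N, ∀ i ∈ range (l.h e),
      ∀ t ∈ U, ∀ t' ∈ U, |t - t'| ≤ 1 / (J : ℝ) → ∀ c, ‖Φ e t i c - Φ e t' i c‖ ≤ 1 / ((m : ℝ) + 1) := by
    rw [Filter.eventually_all_finite (List.finite_toSet FL)]
    intro Φ hΦ
    rw [Filter.eventually_all_finset]
    intro e he
    rw [Filter.eventually_all_finset]
    intro i hi
    obtain ⟨F, hF⟩ := (hFL Φ hΦ).fin
    have h1 : ∀ᶠ J : ℕ in Filter.atTop, ∀ c ∈ F, ∀ t ∈ U, ∀ t' ∈ U, |t - t'| ≤ 1 / (J : ℝ) →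
        ‖Φ e t i c - Φ e t' i c‖ ≤ 1 / ((m : ℝ) + 1) := by
      rw [Filter.eventually_all_finset]
      intro c _
      refine JEX_one (fun s => Φ e s i c) ?_ _ hε
      exact (continuous_apply c).comp_continuousOn ((hFL Φ hΦ).cts e i (mem_range.mp he) (mem_range.mp hi))
    filter_upwards [h1] with J hJ t ht t' ht' htt c
    by_cases hc : c ∈ F
    · exact hJ c hc t ht t' ht' htt
    · rw [hF e t i c (mem_range.mp he) ht (mem_range.mp hi) hc,
        hF e t' i c (mem_range.mp he) ht' (mem_range.mp hi) hc, sub_self, norm_zero]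
      exact hε.le
  obtain ⟨J, hJ1, hJ2⟩ := ((Filter.eventually_ge_atTop 1).and key).exists
  exact ⟨J, hJ1, fun Φ hΦ e i he hi t ht t' ht' htt c =>
    hJ2 Φ hΦ e (mem_range.mpr he) i (mem_range.mpr hi) t ht t' ht' htt c⟩

end Pool.Agent.BND.EX
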